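import Mathlib
import Pool.Agent.H1.CM.Targets2

/-!
# OMGA: generators of the 2-forms of a local ring
-/

namespace Pool.Agent.H1.CM

namespace OMGA

open MvPolynomial

variable {k K : Type} [Field k] [Field K] [Algebra k K]

/-- The wedge of two one-forms as iterated linear map. -/
theorem wedge_sum (x y : Fin 4 → Ω[K⁄k]) (a b : Fin 4 → K) :
    exteriorPower.ιMulti K 2 ![∑ i, a i • x i, ∑ j, b j • y j]
      = ∑ i, ∑ j, (a i * b j) • exteriorPower.ιMulti K 2 ![x i, y j] := by
  have h2 : ∀ (u : Ω[K⁄k]), exteriorPower.ιMulti K 2 ![u, ∑ j, b j • y j]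
      = ∑ j, b j • exteriorPower.ιMulti K 2 ![u, y j] := by
    intro u
    let L : Ω[K⁄k] →ₗ[K] ⋀[K]^2 (Ω[K⁄k]) :=
      { toFun := fun v => ((exteriorPower.ιMulti K 2 (M := Ω[K⁄k])).curryLeft u).curryLeft v ![]
        map_add' := fun v w => by rw [map_add]; rfl
        map_smul' := fun c v => by rw [map_smul]; rfl }
    have hL : ∀ v, L v = exteriorPower.ιMulti K 2 ![u, v] := fun v => rfl
    rw [← hL, map_sum]
    refine Finset.sum_congr rfl fun j _ => ?_
    rw [map_smul, hL]
  have h3 : ∀ (v : Ω[K⁄k]), exteriorPower.ιMulti K 2 ![∑ i, a i • x i, v]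
      = ∑ i, a i • exteriorPower.ιMulti K 2 ![x i, v] := by
    intro v
    let L : Ω[K⁄k] →ₗ[K] ⋀[K]^2 (Ω[K⁄k]) :=
      { toFun := fun u => (exteriorPower.ιMulti K 2 (M := Ω[K⁄k])).curryLeft u ![v]
        map_add' := fun u w => by rw [map_add]; rfl
        map_smul' := fun c u => by rw [map_smul]; rfl }
    have hL : ∀ u, L u = exteriorPower.ιMulti K 2 ![u, v] := fun u => rfl
    rw [← hL, map_sum]
    refine Finset.sum_congr rfl fun j _ => ?_
    rw [map_smul, hL]
  rw [h3]
  refine Finset.sum_congr rfl fun i _ => ?_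
  rw [h2, Finset.smul_sum]
  refine Finset.sum_congr rfl fun j _ => ?_
  rw [smul_smul]

/-- Chain rule for polynomials. -/
theorem chain (T : Fin 4 → K) (p : MvPolynomial (Fin 4) k) :
    KaehlerDifferential.D k K (aeval T p)
      = ∑ i, (aeval T (pderiv i p) : K) • KaehlerDifferential.D k K (T i) := by
  induction p using MvPolynomial.induction_on with
  | C a => simp
  | add p q hp hq =>
    simp only [map_add, hp, hq, add_smul, Finset.sum_add_distrib]
  | mul_X p j hp =>
    simp only [map_mul, aeval_X, Derivation.leibniz, hp, pderiv_X, smul_eq_mul, map_add]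
    simp only [add_smul, Finset.sum_add_distrib, Finset.smul_sum, smul_smul]
    congr 1
    rw [Finset.sum_eq_single j]
    · simp
    · intro i _ hi
      rw [Pi.single_apply, if_neg (Ne.symm hi)]
      simp
    · simp

theorem mem_aeval (R : Subring K) (T : Fin 4 → K) (hc : ∀ c : k, algebraMap k K c ∈ R)
    (hT : ∀ i, T i ∈ R) (p : MvPolynomial (Fin 4) k) : (aeval T p : K) ∈ R := by
  induction p using MvPolynomial.induction_on with
  | C a => simpa using hc a
  | add p q hp hq => rw [map_add]; exact R.add_mem hp hq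
  | mul_X p j hp => rw [map_mul, aeval_X]; exact R.mul_mem hp (hT j)

/-- Differentials of elements of `R`. -/
theorem diff_mem (R : Subring K) (T : Fin 4 → K) (hc : ∀ c : k, algebraMap k K c ∈ R)
    (hT : ∀ i, T i ∈ R)
    (hR : ∀ f ∈ R, ∃ p r : MvPolynomial (Fin 4) k, (MvPolynomial.aeval T r : K) ≠ 0 ∧
    (MvPolynomial.aeval T r : K)⁻¹ ∈ R ∧ f * MvPolynomial.aeval T r = MvPolynomial.aeval T p)
    (f : K) (hf : f ∈ R) : ∃ a : Fin 4 → K, (∀ i, a i ∈ R) ∧
      KaehlerDifferential.D k K f = ∑ i, a i • KaehlerDifferential.D k K (T i) := by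
  obtain ⟨p, r, h0, h1, h2⟩ := hR f hf
  refine ⟨fun i => (aeval T r : K)⁻¹ * (aeval T (pderiv i p) - f * aeval T (pderiv i r)), ?_, ?_⟩
  · intro i
    exact R.mul_mem h1 (R.sub_mem (mem_aeval R T hc hT _) (R.mul_mem hf (mem_aeval R T hc hT _)))
  · have h3 := congrArg (KaehlerDifferential.D k K) h2
    rw [Derivation.leibniz, chain, chain] at h3
    have h4 : (aeval T r : K) • KaehlerDifferential.D k K f
        = ∑ i, ((aeval T (pderiv i p) : K) - f * aeval T (pderiv i r)) •
            KaehlerDifferential.D k K (T i) := by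
      simp only [sub_smul, Finset.sum_sub_distrib]
      rw [← h3, Finset.smul_sum]
      simp only [smul_smul]
      abel
    calc KaehlerDifferential.D k K f
        = (aeval T r : K)⁻¹ • ((aeval T r : K) • KaehlerDifferential.D k K f) := by
          rw [smul_smul, inv_mul_cancel₀ h0, one_smul]
      _ = _ := by
          rw [h4, Finset.smul_sum]
          simp only [smul_smul]

end OMGA

open OMGA in
theorem omga : T_OMGA := by
  intro k K _ _ _ R T η M hc hT hR hM hd hex
  obtain ⟨c, hcR, hc1⟩ := hex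
  unfold IsGen
  apply le_antisymm
  · rw [Submodule.span_le, Set.singleton_subset_iff]
    have h1 : (1 : K) • η = ∑ i, ∑ j, (⟨c i j, hcR i j⟩ : R) • dd k (T i) (T j) := by
      rw [← hc1]
      simp only [Finset.sum_smul]
      refine Finset.sum_congr rfl fun i _ => Finset.sum_congr rfl fun j _ => ?_
      rw [hd i j, ← smul_smul]
      rfl
    rw [h1]
    refine Submodule.sum_mem _ fun i _ => Submodule.sum_mem _ fun j _ => ?_
    exact Submodule.smul_mem _ _ (Submodule.subset_span ⟨T i, hT i, T j, hT j, rfl⟩)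
  · unfold omegaSub
    rw [Submodule.span_le]
    rintro ω ⟨f, hf, g, hg, rfl⟩
    obtain ⟨a, ha, ha'⟩ := diff_mem R T hc hT hR f hf
    obtain ⟨b, hb, hb'⟩ := diff_mem R T hc hT hR g hg
    have h1 : dd k f g = (∑ i, ∑ j, a i * b j * M i j) • η := by
      unfold dd
      rw [ha', hb', wedge_sum]
      simp only [Finset.sum_smul]
      refine Finset.sum_congr rfl fun i _ => Finset.sum_congr rfl fun j _ => ?_
      have := hd i j
      unfold dd at this
      rw [this, smul_smul]
    have h2 : (∑ i, ∑ j, a i * b j * M i j) ∈ R :=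
      R.sum_mem fun i _ => R.sum_mem fun j _ => R.mul_mem (R.mul_mem (ha i) (hb j)) (hM i j)
    rw [h1, one_smul]
    have h3 : (∑ i, ∑ j, a i * b j * M i j) • η
        = (⟨_, h2⟩ : R) • η := rfl
    rw [h3]
    exact Submodule.smul_mem _ _ (Submodule.subset_span rfl)

end Pool.Agent.H1.CM
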